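import Pool.Agent.Helper488_dd.Excl
import Pool.Agent.TH997.DD.Fin2
import Pool.Agent.TH997.DD.SNDS
import Pool.Agent.TH997.DD.KRS
import Pool.Agent.TH997.DD.CLE
import Pool.Agent.TH997.DD.CTE
import Pool.Agent.TH997.DD.REM
import Pool.Agent.TH997.DD.LIO
import Pool.Agent.TH997.DD.RESA
import Pool.Agent.TH997.DD.RESB
import Pool.Agent.TH997.DD.RESC
import Pool.Agent.TH997.DD.ASYM
import Pool.Agent.TH997.DD.NV
import Pool.Agent.TH997.DD.GRW
import Pool.Agent.TH997.DD.TAM
import Pool.Agent.TH997.DD.CLT

/-!
# Nonpositive terms of linear recurrences of any order: syndetic or sparse, decided in `∃ℝ`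

For every rational linear recurrence of order `k` (repeated roots allowed) the set of the indices of
the nonpositive terms is either syndetic (bounded gaps) or has at most
`C N / (log N) ^ (2 ^ (-k))` elements below `N`; the two cases exclude each other, and the first one
reduces in polynomial time to the existential theory of the reals.  If the recurrence is not tight,
or its multiple roots are small, or it is tame, then in the second case all but finitely many terms
are positive.

The parts of the proof are in the starting library (`Pool/Agent/TH997/DD`, not assembled and not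
handed in before).
-/

set_option autoImplicit false

namespace Pool.Agent.Results.MP_5326a7_lc.SyndeticOrSparse

open Pool.Agent.NPC Pool.Agent.NPC.ER Pool.Agent.H612.LR Pool.Agent.TH997.DD
open Pool.Agent.TH286.GT.Main

/-- **The dichotomy.** -/
theorem result :
    (∀ l : Rec, l ≠ [] → (Synd l ∨ Sparse l) ∧ ¬ (Synd l ∧ Sparse l)) ∧
    (∃ f : List Bool → Fm, PolyTime (fun w => bits (f w)) ∧
      ∀ l : Rec, l ≠ [] → (Synd l ↔ ETR (f (bits l)))) ∧
    ∀ l : Rec, l ≠ [] → (NonTight l ∨ SmallMultipleRoots l ∨ Tame l) →
      (UltPositive l ↔ Sparse l) := by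
  have hS : SNDS := snds krs
  have hR : RESC := resc lio
  have hE : CLE := cle resa resb hR (cte rem)
  have hT : CLT := clt resa (tam asym nv hR) grw
  obtain ⟨f, hf, h⟩ := Fin2.main_str hS hE hT
  have hor : ∀ l : Rec, l ≠ [] → Synd l ∨ Sparse l := fun l hl => by
    by_cases he : ETR (f (bits l))
    · exact Or.inl ((h l hl).1 he)
    · exact Or.inr ((h l hl).2.1 he)
  refine ⟨fun l hl => ⟨hor l hl, fun hh => Helper488DD.excl l hh.1 hh.2⟩,
    ⟨f, hf, fun l hl => ⟨fun hs => ?_, (h l hl).1⟩⟩, fun l hl hc => ⟨fun hu => ?_, fun hs => ?_⟩⟩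
  · by_contra he
    exact Helper488DD.excl l hs ((h l hl).2.1 he)
  · rcases hor l hl with hs | hs
    · exfalso
      obtain ⟨N, hN⟩ := hu
      obtain ⟨b, hb⟩ := hs
      obtain ⟨n, h1, _, h3⟩ := hb N
      exact absurd (hN n h1) (not_lt.2 h3)
    · exact hs
  · by_contra hu
    exact Helper488DD.excl l ((h l hl).1 ((h l hl).2.2 hc hu)) hs

end Pool.Agent.Results.MP_5326a7_lc.SyndeticOrSparse
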